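import Mathlib
import Pool.Agent.Lib_helper72.GC.Defs

/-!
# GC2: good roots modulo a prime
-/

set_option autoImplicit false

namespace Pool.Agent.Lib_helper1.GC2

open Finset Pool.Agent.Lib_helper83.CS Pool.Agent.Lib_helper72.GC

/-- The lattice of the `(p,q)` with `p = l q mod E` has no point with `0 < |H(p,q)| ≤ 4 E`. -/
def R1 (E l : ℤ) : Prop := ∀ p q : ℤ, E ∣ p - l * q → |H p q| ≤ 4 * E → H p q = 0

theorem R1_congr {E l l' : ℤ} (h : E ∣ l - l') (hR : R1 E l) : R1 E l' := by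
  intro p q hd hH
  refine hR p q ?_ hH
  have : p - l * q = (p - l' * q) - (l - l') * q := by ring
  rw [this]
  exact dvd_sub hd (dvd_mul_of_dvd_left h q)

/-- the points with `0 < |H| ≤ T` lie in three boxes -/
theorem box {a b : ℤ} {T : ℝ} (h0 : H a b ≠ 0) (hT : |((H a b : ℤ) : ℝ)| ≤ T) :
    (|(a : ℝ)| ≤ T ^ (1 / 3 : ℝ) ∧ |(b : ℝ)| ≤ (2 * T) ^ (1 / 2 : ℝ)) ∨
    (|(b : ℝ)| ≤ T ^ (1 / 3 : ℝ) ∧ |(a : ℝ)| ≤ (2 * T) ^ (1 / 2 : ℝ)) ∨
    (|((a - b : ℤ) : ℝ)| ≤ T ^ (1 / 3 : ℝ) ∧ |(a : ℝ)| ≤ (2 * T) ^ (1 / 2 : ℝ)) := by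
  have ha : a ≠ 0 := by rintro rfl; simp [H] at h0
  have hb : b ≠ 0 := by rintro rfl; simp [H] at h0
  have hc : a - b ≠ 0 := by
    intro h
    apply h0
    rw [H, h, mul_zero]
  have e : |((H a b : ℤ) : ℝ)| = |(a : ℝ)| * |(b : ℝ)| * |((a - b : ℤ) : ℝ)| := by
    rw [H]
    push_cast
    rw [abs_mul, abs_mul]
  rw [e] at hT
  have ha1 : 1 ≤ |(a : ℝ)| := by exact_mod_cast Int.one_le_abs ha
  have hb1 : 1 ≤ |(b : ℝ)| := by exact_mod_cast Int.one_le_abs hb
  have hc1 : 1 ≤ |((a - b : ℤ) : ℝ)| := by exact_mod_cast Int.one_le_abs hc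
  have t1 : |(a : ℝ)| ≤ |(b : ℝ)| + |((a - b : ℤ) : ℝ)| := by
    have : (a : ℝ) = (b : ℝ) + ((a - b : ℤ) : ℝ) := by push_cast; ring
    calc |(a : ℝ)| = |(b : ℝ) + ((a - b : ℤ) : ℝ)| := by rw [← this]
      _ ≤ _ := abs_add_le _ _
  have t2 : |(b : ℝ)| ≤ |(a : ℝ)| + |((a - b : ℤ) : ℝ)| := by
    have : (b : ℝ) = (a : ℝ) - ((a - b : ℤ) : ℝ) := by push_cast; ring
    calc |(b : ℝ)| = |(a : ℝ) - ((a - b : ℤ) : ℝ)| := by rw [← this]
      _ ≤ _ := abs_sub _ _
  have t3 : |((a - b : ℤ) : ℝ)| ≤ |(a : ℝ)| + |(b : ℝ)| := by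
    have : ((a - b : ℤ) : ℝ) = (a : ℝ) - (b : ℝ) := by push_cast; ring
    rw [this]
    exact abs_sub _ _
  set x := |(a : ℝ)| with hx
  set y := |(b : ℝ)| with hy
  set z := |((a - b : ℤ) : ℝ)| with hz
  have hT0 : 0 ≤ T := le_trans (by positivity) hT
  have cube : ∀ u v w : ℝ, 1 ≤ u → u ≤ v → u ≤ w → u * v * w ≤ T → u ≤ T ^ (1 / 3 : ℝ) := by
    intro u v w hu huv huw h
    have h1 : u ^ 3 ≤ T := by
      refine le_trans ?_ h
      have : u * u ≤ v * w := mul_le_mul huv huw (by linarith) (by linarith)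
      nlinarith
    have h2 := Real.rpow_le_rpow (by positivity) h1 (show (0 : ℝ) ≤ 1 / 3 by norm_num)
    rwa [← Real.rpow_natCast, ← Real.rpow_mul (by linarith), show ((3 : ℕ) : ℝ) * (1 / 3) = 1 by norm_num,
      Real.rpow_one] at h2
  have sqr : ∀ u v w : ℝ, 1 ≤ u → u ≤ v → u ≤ w → v ≤ u + w → u * v * w ≤ T →
      v ≤ (2 * T) ^ (1 / 2 : ℝ) := by
    intro u v w hu huv huw hv h
    have h1 : v ^ 2 ≤ 2 * T := by
      have h2 : v ≤ 2 * w := by linarith
      have h3 : v * v ≤ v * (2 * w) := mul_le_mul_of_nonneg_left h2 (by linarith)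
      have h4 : v * w ≤ u * (v * w) := le_mul_of_one_le_left (by nlinarith) hu
      nlinarith
    have h2 := Real.rpow_le_rpow (by positivity) h1 (show (0 : ℝ) ≤ 1 / 2 by norm_num)
    rwa [← Real.rpow_natCast, ← Real.rpow_mul (by linarith), show ((2 : ℕ) : ℝ) * (1 / 2) = 1 by norm_num,
      Real.rpow_one] at h2
  rcases le_total x y with hxy | hxy
  · rcases le_total x z with hxz | hxz
    · left
      exact ⟨cube x y z ha1 hxy hxz hT, sqr x y z ha1 hxy hxz t2 hT⟩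
    · right; right
      refine ⟨cube z x y hc1 hxz (hxz.trans hxy) ?_, sqr z x y hc1 hxz (hxz.trans hxy) ?_ ?_⟩
      · calc z * x * y = x * y * z := by ring
          _ ≤ T := hT
      · linarith
      · calc z * x * y = x * y * z := by ring
          _ ≤ T := hT
  · rcases le_total y z with hyz | hyz
    · right; left
      refine ⟨cube y x z hb1 hxy hyz ?_, sqr y x z hb1 hxy hyz ?_ ?_⟩
      · calc y * x * z = x * y * z := by ring
          _ ≤ T := hT
      · linarith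
      · calc y * x * z = x * y * z := by ring
          _ ≤ T := hT
    · right; right
      refine ⟨cube z x y hc1 (hyz.trans hxy) hyz ?_, sqr z x y hc1 (hyz.trans hxy) hyz ?_ ?_⟩
      · calc z * x * y = x * y * z := by ring
          _ ≤ T := hT
      · linarith
      · calc z * x * y = x * y * z := by ring
          _ ≤ T := hT

/-- the finite set of the pairs in the three boxes -/
noncomputable def bx (A B : ℕ) : Finset (ℤ × ℤ) :=
  (Icc (-(A : ℤ)) A ×ˢ Icc (-(B : ℤ)) B) ∪ (Icc (-(B : ℤ)) B ×ˢ Icc (-(A : ℤ)) A) ∪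
    (Icc (-(B : ℤ)) B ×ˢ Icc (-(A : ℤ)) A).image (fun x => (x.1, x.1 - x.2))

theorem bx_card (A B : ℕ) : ((bx A B).card : ℝ) ≤ 3 * ((2 * A + 1) * (2 * B + 1)) := by
  classical
  have h1 : (bx A B).card ≤ (2 * A + 1) * (2 * B + 1) + (2 * B + 1) * (2 * A + 1) +
      (2 * B + 1) * (2 * A + 1) := by
    have hA : ∀ A : ℕ, (Icc (-(A : ℤ)) A).card = 2 * A + 1 := by
      intro A
      rw [Int.card_Icc]
      omega
    refine (card_union_le _ _).trans (add_le_add ((card_union_le _ _).trans (add_le_add ?_ ?_))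
      (card_image_le.trans ?_))
    · rw [card_product, hA, hA]
    · rw [card_product, hA, hA]
    · rw [card_product, hA, hA]
  have h2 : ((bx A B).card : ℝ) ≤ (((2 * A + 1) * (2 * B + 1) + (2 * B + 1) * (2 * A + 1) +
      (2 * B + 1) * (2 * A + 1) : ℕ) : ℝ) := by exact_mod_cast h1
  refine h2.trans (le_of_eq ?_)
  push_cast
  ring

theorem mem_bx {a b : ℤ} {T : ℝ} (h0 : H a b ≠ 0) (hT : |((H a b : ℤ) : ℝ)| ≤ T) :
    (a, b) ∈ bx ⌊T ^ (1 / 3 : ℝ)⌋₊ ⌊(2 * T) ^ (1 / 2 : ℝ)⌋₊ := by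
  classical
  have key : ∀ (m : ℤ) (R : ℝ), |(m : ℝ)| ≤ R → m ∈ Icc (-(⌊R⌋₊ : ℤ)) ⌊R⌋₊ := by
    intro m R h
    rw [mem_Icc, ← abs_le]
    have h1 : ((m.natAbs : ℕ) : ℝ) ≤ R := by
      rwa [Nat.cast_natAbs, Int.cast_abs]
    have h2 := Nat.le_floor h1
    rw [Int.abs_eq_natAbs]
    exact_mod_cast h2
  rw [bx, mem_union, mem_union]
  rcases box h0 hT with ⟨h1, h2⟩ | ⟨h1, h2⟩ | ⟨h1, h2⟩
  · left; left
    exact mem_product.2 ⟨key _ _ h1, key _ _ h2⟩
  · left; right
    exact mem_product.2 ⟨key _ _ h2, key _ _ h1⟩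
  · right
    refine mem_image.2 ⟨(a, a - b), mem_product.2 ⟨key _ _ h2, key _ _ h1⟩, ?_⟩
    simp

open scoped Classical in
/-- the bad residues `l` -/
noncomputable def badL (p : ℕ) [NeZero p] : Finset (ZMod p) :=
  univ.filter (fun l => ¬ R1 p (l.val : ℤ))

theorem badL_card (p : ℕ) [hp : Fact p.Prime] (h5 : 5 ≤ p) :
    ((badL p).card : ℝ) ≤ 3 * ((2 * ⌊(4 * p : ℝ) ^ (1 / 3 : ℝ)⌋₊ + 1) *
      (2 * ⌊(2 * (4 * p : ℝ)) ^ (1 / 2 : ℝ)⌋₊ + 1)) := by
  classical
  refine le_trans ?_ (bx_card _ _)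
  have h1 : badL p ⊆ (bx ⌊(4 * p : ℝ) ^ (1 / 3 : ℝ)⌋₊ ⌊(2 * (4 * p : ℝ)) ^ (1 / 2 : ℝ)⌋₊).image
      (fun x => (x.1 : ZMod p) / (x.2 : ZMod p)) := by
    intro l hl
    rw [badL, mem_filter] at hl
    have h2 := hl.2
    rw [R1] at h2
    push Not at h2
    obtain ⟨a, b, hd, hH, h0⟩ := h2
    refine mem_image.2 ⟨(a, b), mem_bx h0 ?_, ?_⟩
    · have : ((|H a b| : ℤ) : ℝ) ≤ ((4 * (p : ℤ) : ℤ) : ℝ) := by exact_mod_cast hH
      push_cast at this
      exact_mod_cast this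
    · have h3 : ((a - (l.val : ℤ) * b : ℤ) : ZMod p) = 0 :=
        (ZMod.intCast_zmod_eq_zero_iff_dvd _ p).2 hd
      push_cast at h3
      rw [ZMod.natCast_zmod_val] at h3
      have hb : (b : ZMod p) ≠ 0 := by
        intro hb
        rw [hb, mul_zero, sub_zero] at h3
        have h4 : (p : ℤ) ∣ a := (ZMod.intCast_zmod_eq_zero_iff_dvd _ p).1 h3
        have h5' : (p : ℤ) ∣ b := (ZMod.intCast_zmod_eq_zero_iff_dvd _ p).1 hb
        obtain ⟨a', rfl⟩ := h4
        obtain ⟨b', rfl⟩ := h5'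
        have e : H ((p : ℤ) * a') (p * b') = (p : ℤ) ^ 3 * H a' b' := by
          rw [H, H]; ring
        rw [e] at hH h0
        have h6 : H a' b' ≠ 0 := fun h => h0 (by rw [h, mul_zero])
        have h7 := Int.one_le_abs h6
        rw [abs_mul, abs_of_pos (by positivity : (0 : ℤ) < (p : ℤ) ^ 3)] at hH
        have h8 : (p : ℤ) ^ 3 ≤ 4 * p := by
          refine le_trans ?_ hH
          exact le_mul_of_one_le_right (by positivity) h7
        have h9 : (5 : ℤ) ≤ p := by exact_mod_cast h5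
        nlinarith [h8, h9, sq_nonneg ((p : ℤ) - 5)]
      show (a : ZMod p) / (b : ZMod p) = l
      rw [div_eq_iff hb]
      exact sub_eq_zero.1 h3
  have h2 := (card_le_card h1).trans card_image_le
  exact_mod_cast h2

/-- the polynomial `f_n` modulo `p` -/
def fp {p : ℕ} (n l : ZMod p) : ZMod p := l ^ 3 - n * l ^ 2 + (n - 1) * l - 1

open scoped Classical in
/-- the bad residues `n` -/
noncomputable def badN (p : ℕ) [NeZero p] : Finset (ZMod p) :=
  univ.filter (fun n => ¬ ∃ l : ZMod p, fp n l = 0 ∧ R1 p (l.val : ℤ))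

theorem badN_card (p : ℕ) [hp : Fact p.Prime] (h5 : 5 ≤ p) :
    3 * ((badN p).card : ℝ) ≤ 2 * p + 2 + (badL p).card := by
  classical
  set GG : Finset (ZMod p) := (univ \ badL p) \ {0, 1} with hGG
  have h1 : p ≤ GG.card + (badL p).card + 2 := by
    have e : (univ : Finset (ZMod p)) ⊆ GG ∪ badL p ∪ {0, 1} := by
      intro l _
      by_cases h : l ∈ badL p
      · exact mem_union_left _ (mem_union_right _ h)
      · by_cases h' : l ∈ ({0, 1} : Finset (ZMod p))
        · exact mem_union_right _ h'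
        · refine mem_union_left _ (mem_union_left _ ?_)
          rw [hGG, mem_sdiff, mem_sdiff]
          exact ⟨⟨mem_univ _, h⟩, h'⟩
    have h2 := card_le_card e
    rw [card_univ, ZMod.card] at h2
    refine h2.trans ((card_union_le _ _).trans (add_le_add (card_union_le _ _) card_le_two))
  let φ : ZMod p → ZMod p := fun l => (l ^ 3 - l - 1) / (l ^ 2 - l)
  have hφ : ∀ l ∈ GG, fp (φ l) l = 0 := by
    intro l hl
    rw [hGG, mem_sdiff, mem_insert, mem_singleton, not_or] at hl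
    have h0 : l ^ 2 - l ≠ 0 := by
      have : l ^ 2 - l = l * (l - 1) := by ring
      rw [this]
      exact mul_ne_zero hl.2.1 (sub_ne_zero.2 hl.2.2)
    have h3 : φ l * (l ^ 2 - l) = l ^ 3 - l - 1 := div_mul_cancel₀ _ h0
    rw [fp]
    linear_combination -h3
  have h2 : GG.card ≤ 3 * (GG.image φ).card := by
    refine card_le_mul_card_image GG 3 ?_
    intro n _
    -- the roots of a cubic
    have h3 : GG.filter (fun l => φ l = n) ⊆
        (Polynomial.X ^ 3 - Polynomial.C n * Polynomial.X ^ 2 + Polynomial.C (n - 1) * Polynomial.X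
          - 1 : Polynomial (ZMod p)).roots.toFinset := by
      intro l hl
      rw [mem_filter] at hl
      rw [Multiset.mem_toFinset, Polynomial.mem_roots']
      constructor
      · intro h
        have := congrArg (fun q => Polynomial.coeff q 0) h
        simp at this
      · rw [Polynomial.IsRoot]
        have := hφ l hl.1
        rw [hl.2, fp] at this
        simpa using this
    refine (card_le_card h3).trans ((Multiset.toFinset_card_le _).trans
      ((Polynomial.card_roots' _).trans ?_))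
    compute_degree
  have h3 : Disjoint (badN p) (GG.image φ) := by
    rw [Finset.disjoint_left]
    intro n hn hn'
    obtain ⟨l, hl, rfl⟩ := mem_image.1 hn'
    rw [badN, mem_filter] at hn
    apply hn.2
    refine ⟨l, hφ l hl, ?_⟩
    rw [hGG, mem_sdiff, mem_sdiff] at hl
    by_contra h
    exact hl.1.2 (by rw [badL, mem_filter]; exact ⟨mem_univ _, h⟩)
  have h4 : (badN p).card + (GG.image φ).card ≤ p := by
    rw [← card_union_of_disjoint h3]
    have := card_le_univ (badN p ∪ GG.image φ)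
    rwa [ZMod.card] at this
  have h5 : 3 * (badN p).card ≤ 2 * p + 2 + (badL p).card := by omega
  exact_mod_cast h5

end Pool.Agent.Lib_helper1.GC2
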