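import Pool.Agent.Lib_helper1.GC2.Sieve
import Pool.Agent.Lib_helper1.GC2.Count
import Pool.Agent.Lib_helper23.BG4F.MER

/-!
# GC2: almost all traces are good
-/

set_option autoImplicit false

namespace Pool.Agent.Lib_helper1.GC2

open Finset Pool.Agent.Lib_helper83.CS Pool.Agent.Lib_helper72.GC

/-- there is a root `(E, l)` for the trace `n` -/
def GoodTr (n : ℤ) : Prop :=
  10 ^ 24 ≤ |n| ∧ ∃ E l : ℤ, 10 ^ 8 ≤ E ∧ 4 * 10 ^ 6 * E ≤ |n| ∧ E ∣ FF (-1) (-1) n l 1 ∧ R1 E l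

/-- the proportion of the bad residues is at most `2/3 + η` -/
theorem badN_le (η : ℝ) (hη : 0 < η) : ∃ P0 : ℕ, 5 ≤ P0 ∧ ∀ (p : ℕ) [Fact p.Prime], P0 ≤ p →
    ((badN p).card : ℝ) ≤ (2 / 3 + η) * p := by
  refine ⟨max 5 ⌈(164 / (3 * η)) ^ 6⌉₊, le_max_left _ _, ?_⟩
  intro p hp hP
  have h5 : 5 ≤ p := (le_max_left _ _).trans hP
  have hbig : (164 / (3 * η)) ^ 6 ≤ (p : ℝ) :=
    (Nat.le_ceil _).trans (by exact_mod_cast (le_max_right _ _).trans hP)
  have hp5 : (5 : ℝ) ≤ p := by exact_mod_cast h5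
  have hp0 : (0 : ℝ) < p := by linarith
  have h1 := badN_card p h5
  have h2 := badL_card p h5
  set x := (4 * p : ℝ) ^ (1 / 3 : ℝ) with hx
  set y := (2 * (4 * p : ℝ)) ^ (1 / 2 : ℝ) with hy
  have hx1 : 1 ≤ x := Real.one_le_rpow (by linarith) (by norm_num)
  have hy1 : 1 ≤ y := Real.one_le_rpow (by linarith) (by norm_num)
  have hxf : (⌊x⌋₊ : ℝ) ≤ x := Nat.floor_le (by linarith)
  have hyf : (⌊y⌋₊ : ℝ) ≤ y := Nat.floor_le (by linarith)
  have hx2 : x ≤ 2 * (p : ℝ) ^ (1 / 3 : ℝ) := by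
    rw [hx, Real.mul_rpow (by norm_num) hp0.le]
    refine mul_le_mul_of_nonneg_right ?_ (by positivity)
    have : (4 : ℝ) ^ (1 / 3 : ℝ) ≤ (2 ^ (3 : ℕ) : ℝ) ^ (1 / 3 : ℝ) :=
      Real.rpow_le_rpow (by norm_num) (by norm_num) (by norm_num)
    refine this.trans (le_of_eq ?_)
    rw [← Real.rpow_natCast, ← Real.rpow_mul (by norm_num)]
    norm_num
  have hy2 : y ≤ 3 * (p : ℝ) ^ (1 / 2 : ℝ) := by
    have e : 2 * (4 * (p : ℝ)) = 8 * p := by ring
    rw [hy, e, Real.mul_rpow (by norm_num) hp0.le]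
    refine mul_le_mul_of_nonneg_right ?_ (by positivity)
    have : (8 : ℝ) ^ (1 / 2 : ℝ) ≤ (3 ^ (2 : ℕ) : ℝ) ^ (1 / 2 : ℝ) :=
      Real.rpow_le_rpow (by norm_num) (by norm_num) (by norm_num)
    refine this.trans (le_of_eq ?_)
    rw [← Real.rpow_natCast, ← Real.rpow_mul (by norm_num)]
    norm_num
  have h3 : ((badL p).card : ℝ) ≤ 162 * (p : ℝ) ^ (5 / 6 : ℝ) := by
    refine h2.trans ?_
    have a1 : (2 * (⌊x⌋₊ : ℝ) + 1) ≤ 6 * (p : ℝ) ^ (1 / 3 : ℝ) := by linarith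
    have a2 : (2 * (⌊y⌋₊ : ℝ) + 1) ≤ 9 * (p : ℝ) ^ (1 / 2 : ℝ) := by linarith
    have a3 : (2 * (⌊x⌋₊ : ℝ) + 1) * (2 * (⌊y⌋₊ : ℝ) + 1) ≤
        (6 * (p : ℝ) ^ (1 / 3 : ℝ)) * (9 * (p : ℝ) ^ (1 / 2 : ℝ)) :=
      mul_le_mul a1 a2 (by positivity) (by positivity)
    have a4 : (p : ℝ) ^ (5 / 6 : ℝ) = (p : ℝ) ^ (1 / 3 : ℝ) * (p : ℝ) ^ (1 / 2 : ℝ) := by
      rw [← Real.rpow_add hp0]
      norm_num
    rw [a4]
    linarith
  have h4 : (1 : ℝ) ≤ (p : ℝ) ^ (5 / 6 : ℝ) := Real.one_le_rpow (by linarith) (by norm_num)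
  have h5' : 164 / (3 * η) ≤ (p : ℝ) ^ (1 / 6 : ℝ) := by
    have := Real.rpow_le_rpow (by positivity) hbig (show (0 : ℝ) ≤ 1 / 6 by norm_num)
    rwa [← Real.rpow_natCast, ← Real.rpow_mul (by positivity), show ((6 : ℕ) : ℝ) * (1 / 6) = 1 by norm_num,
      Real.rpow_one] at this
  have h6 : 164 ≤ 3 * η * (p : ℝ) ^ (1 / 6 : ℝ) := by
    rw [div_le_iff₀ (by positivity)] at h5'
    linarith
  have h7 : 164 * (p : ℝ) ^ (5 / 6 : ℝ) ≤ 3 * η * p := by
    have e : (p : ℝ) = (p : ℝ) ^ (1 / 6 : ℝ) * (p : ℝ) ^ (5 / 6 : ℝ) := by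
      rw [← Real.rpow_add hp0]
      norm_num
    calc 164 * (p : ℝ) ^ (5 / 6 : ℝ) ≤ (3 * η * (p : ℝ) ^ (1 / 6 : ℝ)) * (p : ℝ) ^ (5 / 6 : ℝ) :=
          mul_le_mul_of_nonneg_right h6 (by positivity)
      _ = 3 * η * ((p : ℝ) ^ (1 / 6 : ℝ) * (p : ℝ) ^ (5 / 6 : ℝ)) := by ring
      _ = 3 * η * p := by rw [← e]
  linarith

/-- a residue which is not bad gives a root -/
theorem good_of_notMem (n : ℤ) (p : ℕ) [hp : Fact p.Prime] (hp8 : 10 ^ 8 ≤ p)
    (hn : 10 ^ 24 ≤ |n|) (hpn : 4 * 10 ^ 6 * (p : ℤ) ≤ |n|) (h : (n : ZMod p) ∉ badN p) :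
    GoodTr n := by
  classical
  rw [badN, mem_filter, not_and, not_not] at h
  obtain ⟨l, h1, h2⟩ := h (mem_univ _)
  refine ⟨hn, p, l.val, by exact_mod_cast hp8, hpn, ?_, h2⟩
  rw [← ZMod.intCast_zmod_eq_zero_iff_dvd]
  rw [fp] at h1
  rw [FF]
  push_cast
  rw [ZMod.natCast_zmod_val]
  linear_combination h1

open scoped Classical in
/-- All but `O(N^δ)` of the traces `|n| ≤ N` are good, for every `δ > 2/3`. -/
theorem den_aux (δ : ℝ) (hδ : 2 / 3 < δ) (hδ1 : δ ≤ 1) : ∃ C : ℝ, ∀ N : ℕ, 1 ≤ N →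
    (((Icc (-(N : ℤ)) N).filter (fun n => ¬ GoodTr n)).card : ℝ) ≤ C * (N : ℝ) ^ δ := by
  set η : ℝ := (δ - 2 / 3) / 2 with hη
  have hη0 : 0 < η := by rw [hη]; linarith
  obtain ⟨P0, hP5, hP0⟩ := badN_le η hη0
  obtain ⟨C0, hC0⟩ := Pool.Agent.BG4.mertens_one
  set P1 : ℕ := max P0 (10 ^ 8) with hP1
  set κ : ℝ := 2 / 3 + η with hκ
  have hκ0 : 0 < κ := by rw [hκ]; linarith
  have hκδ : κ < δ := by rw [hκ, hη]; linarith
  set C1 : ℝ := ∑ p ∈ (Icc 1 P1).filter Nat.Prime, Real.log p / p with hC1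
  -- the lower bound for the sum over the primes
  set C2 : ℝ := (Real.log 2 + C0 + C1) / κ + Real.log 2 + 1 with hC2
  have hrat : 0 < δ / κ - 1 := by
    rw [sub_pos, lt_div_iff₀ hκ0]
    linarith
  obtain ⟨N0, hN0⟩ : ∃ N0 : ℕ, ∀ N : ℕ, N0 ≤ N → C2 ≤ (δ / κ - 1) * Real.log N := by
    have h1 : Filter.Tendsto (fun N : ℕ => (δ / κ - 1) * Real.log N) Filter.atTop Filter.atTop :=
      Filter.Tendsto.const_mul_atTop hrat (Real.tendsto_log_atTop.comp tendsto_natCast_atTop_atTop)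
    exact Filter.eventually_atTop.1 (h1.eventually_ge_atTop C2)
  refine ⟨(2 * (N0 : ℝ) + 1) + (10 ^ 7 + 3 * 10 ^ 24), ?_⟩
  intro N hN
  have hN1 : (1 : ℝ) ≤ N := by exact_mod_cast hN
  have hNδ : (1 : ℝ) ≤ (N : ℝ) ^ δ := Real.one_le_rpow hN1 (by linarith)
  rcases lt_or_ge N N0 with hlt | hge
  · have h1 : (((Icc (-(N : ℤ)) N).filter (fun n => ¬ GoodTr n)).card : ℝ) ≤ 2 * N + 1 := by
      have h2 := card_filter_le (Icc (-(N : ℤ)) N) (fun n => ¬ GoodTr n)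
      rw [Int.card_Icc] at h2
      have h3 : ((N : ℤ) + 1 - -(N : ℤ)).toNat = 2 * N + 1 := by omega
      rw [h3] at h2
      exact_mod_cast h2
    have h2 : (N : ℝ) ≤ N0 := by exact_mod_cast hlt.le
    refine h1.trans ?_
    calc 2 * (N : ℝ) + 1 ≤ (2 * (N0 : ℝ) + 1) * 1 + 0 * 1 := by linarith
      _ ≤ (2 * (N0 : ℝ) + 1) * (N : ℝ) ^ δ + (10 ^ 7 + 3 * 10 ^ 24) * (N : ℝ) ^ δ := by
          refine add_le_add (mul_le_mul_of_nonneg_left hNδ (by positivity)) ?_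
          rw [zero_mul]
          positivity
      _ = _ := by ring
  · set Q : ℕ := ⌊(N : ℝ) ^ δ⌋₊ with hQ
    have hQ1 : 1 ≤ Q := Nat.le_floor (by exact_mod_cast hNδ)
    have hQle : (Q : ℝ) ≤ (N : ℝ) ^ δ := Nat.floor_le (by positivity)
    have hQge : (N : ℝ) ^ δ ≤ 2 * Q := by
      have h1 : (N : ℝ) ^ δ < Q + 1 := Nat.lt_floor_add_one _
      have h2 : (1 : ℝ) ≤ Q := by exact_mod_cast hQ1
      linarith
    have hlogQ : δ * Real.log N - Real.log 2 ≤ Real.log Q := by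
      have h1 := Real.log_le_log (by positivity) hQge
      rw [Real.log_rpow (by linarith), Real.log_mul (by norm_num)
        (by exact_mod_cast (by omega : Q ≠ 0))] at h1
      linarith
    set P : Finset ℕ := ((Icc 1 Q).filter Nat.Prime).filter (fun p => P1 < p) with hP
    have hPp : ∀ p ∈ P, p.Prime := fun p hp => (mem_filter.1 (mem_filter.1 hp).1).2
    set S : Finset ℤ := (Icc (-(N : ℤ)) N).filter (fun n => ¬ GoodTr n ∧
      4 * 10 ^ 6 * (Q : ℤ) ≤ |n| ∧ 10 ^ 24 ≤ |n|) with hS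
    have hS1 : ∀ p ∈ P, ((S.image (fun s : ℤ => (s : ZMod p))).card : ℝ) ≤ κ * p := by
      intro p hp
      have : Fact p.Prime := ⟨hPp p hp⟩
      have hpP1 : P1 < p := (mem_filter.1 hp).2
      have hpQ : p ≤ Q := (mem_Icc.1 (mem_filter.1 (mem_filter.1 hp).1).1).2
      refine le_trans ?_ (hP0 p ((le_max_left _ _).trans hpP1.le))
      have h1 : S.image (fun s : ℤ => (s : ZMod p)) ⊆ badN p := by
        intro r hr
        obtain ⟨n, hn, rfl⟩ := mem_image.1 hr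
        rw [hS, mem_filter] at hn
        by_contra h
        refine hn.2.1 (good_of_notMem n p ((le_max_right _ _).trans hpP1.le) hn.2.2.2 ?_ h)
        refine le_trans ?_ hn.2.2.1
        have : (p : ℤ) ≤ Q := by exact_mod_cast hpQ
        linarith
      exact_mod_cast card_le_card h1
    have hM : ∀ a ∈ S, ∀ b ∈ S, |((a - b : ℤ) : ℝ)| ≤ 2 * N := by
      intro a ha b hb
      rw [hS, mem_filter, mem_Icc] at ha hb
      have h1 : |a - b| ≤ 2 * (N : ℤ) := by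
        rw [abs_le]
        omega
      have h2 : ((|a - b| : ℤ) : ℝ) ≤ ((2 * (N : ℤ) : ℤ) : ℝ) := by exact_mod_cast h1
      push_cast at h2 ⊢
      exact h2
    have hsieve := larger_sieve S P hPp (2 * N) (by linarith) hM (fun p => κ * p)
      (fun p hp => by
        have : (0 : ℝ) < p := by exact_mod_cast (hPp p hp).pos
        positivity) hS1
    -- the sum of `log p / p`
    have h1 : Real.log Q - C0 - C1 ≤ ∑ p ∈ P, Real.log p / p := by
      have h2 := (abs_le.1 (hC0 Q hQ1)).1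
      have h3 : ∑ p ∈ (Icc 1 Q).filter Nat.Prime, Real.log p / p ≤
          ∑ p ∈ P, Real.log p / p + C1 := by
        have h4 : (Icc 1 Q).filter Nat.Prime ⊆ P ∪ (Icc 1 P1).filter Nat.Prime := by
          intro p hp
          by_cases h : P1 < p
          · exact mem_union_left _ (mem_filter.2 ⟨hp, h⟩)
          · refine mem_union_right _ ?_
            rw [mem_filter, mem_Icc] at hp ⊢
            exact ⟨⟨hp.1.1, by omega⟩, hp.2⟩
        have hnn : ∀ p : ℕ, 0 ≤ Real.log p / p := fun p =>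
          div_nonneg (Real.log_natCast_nonneg p) (Nat.cast_nonneg p)
        calc ∑ p ∈ (Icc 1 Q).filter Nat.Prime, Real.log p / p ≤
            ∑ p ∈ P ∪ (Icc 1 P1).filter Nat.Prime, Real.log p / p :=
              sum_le_sum_of_subset_of_nonneg h4 fun p _ _ => hnn p
          _ ≤ _ := by
              rw [← sum_union_inter]
              exact le_add_of_nonneg_right (sum_nonneg fun p _ => hnn p)
      linarith
    have h2 : ∑ p ∈ P, Real.log p / (κ * p) = (∑ p ∈ P, Real.log p / p) / κ := by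
      rw [sum_div]
      refine sum_congr rfl fun p _ => ?_
      rw [div_div, mul_comm κ]
    have h3 : 1 ≤ ∑ p ∈ P, Real.log p / (κ * p) - Real.log (2 * N) := by
      rw [h2, Real.log_mul (by norm_num) (by linarith)]
      have h4 := hN0 N hge
      have h5 : (δ * Real.log N - Real.log 2 - C0 - C1) / κ ≤ (∑ p ∈ P, Real.log p / p) / κ :=
        div_le_div_of_nonneg_right (by linarith) hκ0.le
      have h6 : (δ * Real.log N - Real.log 2 - C0 - C1) / κ =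
          δ / κ * Real.log N - (Real.log 2 + C0 + C1) / κ := by
        field_simp
        ring
      rw [h6] at h5
      rw [hC2] at h4
      linarith
    have h4 : (S.card : ℝ) ≤ 2 * Q := by
      have h5 : (S.card : ℝ) * 1 ≤ ∑ p ∈ P, Real.log p :=
        (mul_le_mul_of_nonneg_left h3 (Nat.cast_nonneg _)).trans hsieve
      have h6 : ∑ p ∈ P, Real.log (p : ℝ) ≤ Real.log 4 * Q := by
        have h7 := Chebyshev.theta_le_log4_mul_x (x := (Q : ℝ)) (Nat.cast_nonneg Q)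
        rw [Chebyshev.theta_eq_sum_Icc, Nat.floor_natCast] at h7
        refine le_trans ?_ h7
        apply Finset.sum_le_sum_of_subset_of_nonneg
        · refine (filter_subset _ _).trans (Finset.filter_subset_filter _
            (Finset.Icc_subset_Icc (by norm_num) le_rfl))
        · intro p hp _
          exact Real.log_nonneg (by exact_mod_cast (mem_filter.mp hp).2.one_le)
      have h7 : Real.log 4 ≤ 2 := by
        have : Real.log 4 = 2 * Real.log 2 := by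
          rw [show (4 : ℝ) = 2 ^ 2 by norm_num, Real.log_pow]
          norm_num
        rw [this]
        have := Real.log_two_lt_d9
        linarith
      have h8 : Real.log 4 * Q ≤ 2 * Q := mul_le_mul_of_nonneg_right h7 (Nat.cast_nonneg _)
      linarith
    have h5 : ((Icc (-(N : ℤ)) N).filter (fun n => ¬ GoodTr n)) ⊆
        S ∪ Icc (-(4 * 10 ^ 6 * (Q : ℤ))) (4 * 10 ^ 6 * (Q : ℤ)) ∪ Icc (-10 ^ 24) (10 ^ 24) := by
      intro n hn
      rw [mem_filter] at hn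
      by_cases h6 : 4 * 10 ^ 6 * (Q : ℤ) ≤ |n|
      · by_cases h7 : 10 ^ 24 ≤ |n|
        · exact mem_union_left _ (mem_union_left _ (mem_filter.2 ⟨hn.1, hn.2, h6, h7⟩))
        · refine mem_union_right _ (mem_Icc.2 ?_)
          rw [not_le, abs_lt] at h7
          exact ⟨by linarith [h7.1], h7.2.le⟩
      · refine mem_union_left _ (mem_union_right _ (mem_Icc.2 ?_))
        rw [not_le, abs_lt] at h6
        exact ⟨by linarith [h6.1], h6.2.le⟩
    have h6 : (((Icc (-(N : ℤ)) N).filter (fun n => ¬ GoodTr n)).card : ℝ) ≤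
        S.card + (8 * 10 ^ 6 * Q + 1) + (2 * 10 ^ 24 + 1) := by
      have h7 := (card_le_card h5).trans ((card_union_le _ _).trans
        (add_le_add (card_union_le _ _) le_rfl))
      rw [Int.card_Icc, Int.card_Icc] at h7
      have h8 : (4 * 10 ^ 6 * (Q : ℤ) + 1 - -(4 * 10 ^ 6 * (Q : ℤ))).toNat = 8 * 10 ^ 6 * Q + 1 := by
        omega
      have h9 : ((10 : ℤ) ^ 24 + 1 - -10 ^ 24).toNat = 2 * 10 ^ 24 + 1 := by
        rw [show (10 : ℤ) ^ 24 + 1 - -10 ^ 24 = ((2 * 10 ^ 24 + 1 : ℕ) : ℤ) by norm_num,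
          Int.toNat_natCast]
      rw [h8, h9] at h7
      exact_mod_cast h7
    refine h6.trans ?_
    calc (S.card : ℝ) + (8 * 10 ^ 6 * Q + 1) + (2 * 10 ^ 24 + 1) ≤
        (10 ^ 7) * (N : ℝ) ^ δ + (3 * 10 ^ 24) * 1 := by linarith
      _ ≤ (10 ^ 7) * (N : ℝ) ^ δ + (3 * 10 ^ 24) * (N : ℝ) ^ δ := by
          linarith
      _ ≤ (2 * (N0 : ℝ) + 1) * (N : ℝ) ^ δ + ((10 ^ 7) * (N : ℝ) ^ δ +
          (3 * 10 ^ 24) * (N : ℝ) ^ δ) := le_add_of_nonneg_left (by positivity)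
      _ = _ := by ring

open scoped Classical in
/-- All but `O(N^δ)` of the traces `|n| ≤ N` are good, for every `δ > 2/3`. -/
theorem den (δ : ℝ) (hδ : 2 / 3 < δ) : ∃ C : ℝ, ∀ N : ℕ, 1 ≤ N →
    (((Icc (-(N : ℤ)) N).filter (fun n => ¬ GoodTr n)).card : ℝ) ≤ C * (N : ℝ) ^ δ := by
  rcases le_total δ 1 with h | h
  · exact den_aux δ hδ h
  · obtain ⟨C, hC⟩ := den_aux 1 (by norm_num) le_rfl
    refine ⟨|C|, fun N hN => (hC N hN).trans ?_⟩
    have hN1 : (1 : ℝ) ≤ N := by exact_mod_cast hN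
    calc C * (N : ℝ) ^ (1 : ℝ) ≤ |C| * (N : ℝ) ^ (1 : ℝ) :=
          mul_le_mul_of_nonneg_right (le_abs_self C) (by positivity)
      _ ≤ |C| * (N : ℝ) ^ δ :=
          mul_le_mul_of_nonneg_left (Real.rpow_le_rpow_of_exponent_le hN1 h) (abs_nonneg C)

end Pool.Agent.Lib_helper1.GC2
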