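import Pool.Agent.Lib_helper72.GC.W4
import Pool.Agent.Lib_helper1.GC2.Count

/-!
# GC2: the root of a tree, for arbitrary parameters `(E, l)`
-/

set_option autoImplicit false

namespace Pool.Agent.Lib_helper1.GC2

open Pool.Agent.Lib_helper83.CS Pool.Agent.Lib_helper72.GC

theorem JJ_theta (F : Frame) (hs : F.s = -1) (ht : F.t = -1) {E l : ℤ}
    (hE : E ∣ FF (-1) (-1) F.n l 1) {x : V} (hx : x ∈ JJ F.θ E l) :
    (fun i => F.θ i * x i) ∈ JJ F.θ E l := by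
  obtain ⟨a, b, c, habc, hd⟩ := hx
  refine ⟨c, a - (F.n - 1) * c, b + F.n * c, fun i => ?_, ?_⟩
  · have hr := F.root i
    rw [hs, ht] at hr
    show F.θ i * x i = _
    rw [habc i]
    push_cast at hr ⊢
    linear_combination (c : ℝ) * hr
  · have e : c + (a - (F.n - 1) * c) * l + (b + F.n * c) * l ^ 2
        = l * (a + b * l + c * l ^ 2) - c * FF (-1) (-1) F.n l 1 := by
      unfold FF; ring
    rw [e]
    exact dvd_sub (hd.mul_left _) (hE.mul_left _)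

theorem JJ_add (F : Frame) {E l : ℤ} {x y : V} (hx : x ∈ JJ F.θ E l) (hy : y ∈ JJ F.θ E l) :
    (fun i => x i + y i) ∈ JJ F.θ E l := by
  obtain ⟨a, b, c, h1, h2⟩ := hx
  obtain ⟨a', b', c', h1', h2'⟩ := hy
  refine ⟨a + a', b + b', c + c', fun i => ?_, ?_⟩
  · show x i + y i = _
    rw [h1, h1']; push_cast; ring
  · have : a + a' + (b + b') * l + (c + c') * l ^ 2
        = (a + b * l + c * l ^ 2) + (a' + b' * l + c' * l ^ 2) := by ring
    rw [this]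
    exact dvd_add h2 h2'

theorem JJ_smul (F : Frame) {E l : ℤ} (k : ℤ) {x : V} (hx : x ∈ JJ F.θ E l) :
    (fun i => k * x i) ∈ JJ F.θ E l := by
  obtain ⟨a, b, c, h1, h2⟩ := hx
  refine ⟨k * a, k * b, k * c, fun i => ?_, ?_⟩
  · show (k : ℝ) * x i = _
    rw [h1]; push_cast; ring
  · have : k * a + k * b * l + k * c * l ^ 2 = k * (a + b * l + c * l ^ 2) := by ring
    rw [this]
    exact h2.mul_left _

theorem JJ_mul (F : Frame) (hs : F.s = -1) (ht : F.t = -1) {E l : ℤ}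
    (hE : E ∣ FF (-1) (-1) F.n l 1) {x y : V} (hy : y ∈ O F.θ) (hx : x ∈ JJ F.θ E l) :
    (fun i => y i * x i) ∈ JJ F.θ E l := by
  obtain ⟨a, b, c, h⟩ := hy
  have h1 := JJ_theta F hs ht hE hx
  have h2 := JJ_theta F hs ht hE h1
  have h3 := JJ_add F (JJ_add F (JJ_smul F a hx) (JJ_smul F b h1))
    (JJ_smul F c h2)
  have e : (fun i => y i * x i) = fun i => (a : ℝ) * x i + b * (F.θ i * x i)
      + c * (F.θ i * (F.θ i * x i)) := by
    funext i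
    rw [h i]; ring
  rw [e]
  exact h3

theorem JJ_O (F : Frame) {E l : ℤ} {x : V} (hx : x ∈ JJ F.θ E l) : x ∈ O F.θ := by
  obtain ⟨a, b, c, h, _⟩ := hx
  exact ⟨a, b, c, h⟩

/-- integer coordinates are unique -/
theorem O_coord (F : Frame) {a b c a' b' c' : ℤ}
    (h : ∀ i, (a : ℝ) + b * F.θ i + c * F.θ i ^ 2 = a' + b' * F.θ i + c' * F.θ i ^ 2) :
    a = a' ∧ b = b' ∧ c = c' := by
  have h1 := O_indep F ((a : ℝ) - a') ((b : ℝ) - b') ((c : ℝ) - c') (fun i => by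
    have := h i; linarith)
  obtain ⟨h2, h3, h4⟩ := h1
  refine ⟨?_, ?_, ?_⟩
  · exact_mod_cast sub_eq_zero.1 h2
  · exact_mod_cast sub_eq_zero.1 h3
  · exact_mod_cast sub_eq_zero.1 h4

theorem Nm_mul1 (x y : V) : Nm (fun i => x i * y i) = Nm x * Nm y := by
  unfold Nm; ring

theorem Nm_ne1 {x : V} (h : ∀ i, x i ≠ 0) : Nm x ≠ 0 :=
  mul_ne_zero (mul_ne_zero (h 0) (h 1)) (h 2)

theorem E_real {E : ℤ} (hE8 : 10 ^ 8 ≤ E) : (10 : ℝ) ^ 8 ≤ (E : ℝ) := by exact_mod_cast hE8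

theorem En_real {E n : ℤ} (hEn : 4 * 10 ^ 6 * E ≤ |n|) : 4 * 10 ^ 6 * (E : ℝ) ≤ |(n : ℝ)| := by
  have h1 : (((4 * 10 ^ 6 * E : ℤ)) : ℝ) ≤ ((|n| : ℤ) : ℝ) := by exact_mod_cast hEn
  rw [Int.cast_abs] at h1
  push_cast at h1
  linarith

theorem n_real {n : ℤ} (hn : 10 ^ 24 ≤ |n|) : (10 : ℝ) ^ 24 ≤ |(n : ℝ)| := by
  have h1 : (((10 : ℤ) ^ 24 : ℤ) : ℝ) ≤ ((|n| : ℤ) : ℝ) := by exact_mod_cast hn
  rw [Int.cast_abs] at h1
  norm_num at h1 ⊢
  exact h1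

/-- A primitive element of `JJ` of small norm is `± E` times a unit. -/
theorem root_core (F : Frame) (hs : F.s = -1) (ht : F.t = -1) (hn : 10 ^ 24 ≤ |F.n|) {E l : ℤ}
    (hE8 : 10 ^ 8 ≤ E) (hEn : 4 * 10 ^ 6 * E ≤ |F.n|) (hR : R1 E l)
    (hE : E ∣ FF (-1) (-1) F.n l 1) {z : V} (hz : Prim (JJ F.θ E l) z)
    (hN : |Nm z| ≤ 3 * E * |(F.n : ℝ)|) :
    ∃ u ∈ Un F.θ, ∃ k : ℤ, (k = 1 ∨ k = -1) ∧ ∀ i, z i = k * (E * u i) := by
  have hE8' := E_real hE8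
  have hEn' := En_real hEn
  have hE0 : (0 : ℝ) < E := by linarith [show (0 : ℝ) < 10 ^ 8 by norm_num]
  have hnR := n_real hn
  have hzJ := hz.1
  have hprim := hz.2
  have hz0 : ∀ i, z i ≠ 0 := by
    intro i hi
    obtain ⟨a, b, c, habc, _⟩ := id hzJ
    have h1 := habc i
    rw [hi] at h1
    obtain ⟨ha, hb, hc⟩ := O_zero F a b c i h1.symm
    have hzz : ∀ j, z j = ((0 : ℤ) : ℝ) * z j := by
      intro j
      rw [habc j, ha, hb, hc]; simp
    have := hprim 0 z hzJ hzz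
    omega
  have hn2 : (F.n : ℝ) ^ 2 = |(F.n : ℝ)| ^ 2 := (sq_abs _).symm
  have hpos : (0 : ℝ) < |(F.n : ℝ)| := by linarith [show (0:ℝ) < 10 ^ 24 by norm_num]
  obtain ⟨h', hLH, hk⟩ := SN F (by linarith [show (10:ℤ) ^ 20 ≤ 10 ^ 24 by norm_num]) z
    (JJ_O F hzJ) hz0 (by
      rw [hn2]
      rw [le_div_iff₀ (by norm_num)]
      have h1 : 3 * (E : ℝ) * |(F.n : ℝ)| * 10 ^ 6 ≤ |(F.n : ℝ)| * |(F.n : ℝ)| := by
        have : 3 * (E : ℝ) * |(F.n : ℝ)| * 10 ^ 6 = (3 * 10 ^ 6 * E) * |(F.n : ℝ)| := by ring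
        rw [this]
        exact mul_le_mul_of_nonneg_right (by linarith) hpos.le
      nlinarith)
  have hLH' := hLH
  obtain ⟨u, hu, p, q, huz, hH⟩ := hLH
  have hu0 : ∀ i, u i ≠ 0 := fun i => Un_ne F hu i
  have hh : h' ≤ 4 * E := by
    have h1 : 0.9 * |(F.n : ℝ)| * h' ≤ 3 * E * |(F.n : ℝ)| := hk.trans hN
    have h2 : (h' : ℝ) ≤ 4 * E := by
      by_contra hcon
      push Not at hcon
      have h3 : 0.9 * |(F.n : ℝ)| * (4 * E) < 0.9 * |(F.n : ℝ)| * h' :=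
        mul_lt_mul_of_pos_left hcon (by positivity)
      have h4 : 0 < |(F.n : ℝ)| * E := mul_pos hpos hE0
      nlinarith
    exact_mod_cast h2
  have hpq : E ∣ p - l * q := by
    have h1 := JJ_mul F hs ht hE (Un_O F (Un_inv F hu)) hzJ
    obtain ⟨a, b, c, habc, hd⟩ := h1
    have h2 : ∀ i, ((p : ℤ) : ℝ) + ((-q : ℤ) : ℝ) * F.θ i + ((0 : ℤ) : ℝ) * F.θ i ^ 2
        = a + b * F.θ i + c * F.θ i ^ 2 := by
      intro i
      have h3 : (u i)⁻¹ * z i = a + b * F.θ i + c * F.θ i ^ 2 := habc i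
      rw [← h3, huz i, inv_mul_cancel_left₀ (hu0 i)]
      push_cast
      ring
    obtain ⟨ha, hb, hc⟩ := O_coord F h2
    rw [← ha, ← hb, ← hc] at hd
    have e : p + -q * l + 0 * l ^ 2 = p - l * q := by ring
    rwa [e] at hd
  have hH0 : H p q = 0 := hR p q hpq (by rw [hH]; exact hh)
  rw [hH0, abs_zero] at hH
  subst hH
  obtain ⟨u', hu', m, hm⟩ := LH_zero F hLH'
  have hu'0 : ∀ i, u' i ≠ 0 := fun i => Un_ne F hu' i
  have hmE : E ∣ m := by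
    have h1 := JJ_mul F hs ht hE (Un_O F (Un_inv F hu')) hzJ
    obtain ⟨a, b, c, habc, hd⟩ := h1
    have h2 : ∀ i, ((m : ℤ) : ℝ) + ((0 : ℤ) : ℝ) * F.θ i + ((0 : ℤ) : ℝ) * F.θ i ^ 2
        = a + b * F.θ i + c * F.θ i ^ 2 := by
      intro i
      have h3 : (u' i)⁻¹ * z i = a + b * F.θ i + c * F.θ i ^ 2 := habc i
      rw [← h3, hm i, mul_comm (m : ℝ), inv_mul_cancel_left₀ (hu'0 i)]
      push_cast
      ring
    obtain ⟨ha, hb, hc⟩ := O_coord F h2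
    rw [← ha, ← hb, ← hc] at hd
    simpa using hd
  obtain ⟨k, rfl⟩ := hmE
  have hEu : (fun i => (E : ℝ) * u' i) ∈ JJ F.θ E l := by
    obtain ⟨a, b, c, habc⟩ := Un_O F hu'
    refine ⟨E * a, E * b, E * c, fun i => ?_, ?_⟩
    · show (E : ℝ) * u' i = _
      rw [habc i]; push_cast; ring
    · have : E * a + E * b * l + E * c * l ^ 2 = E * (a + b * l + c * l ^ 2) := by ring
      rw [this]
      exact dvd_mul_right _ _
  refine ⟨u', hu', k, hprim k _ hEu (fun i => ?_), fun i => ?_⟩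
  · rw [hm i]; push_cast; ring
  · rw [hm i]; push_cast; ring

theorem F2_rootG (F : Frame) (hs : F.s = -1) (ht : F.t = -1) (hn : 10 ^ 24 ≤ |F.n|) {E l : ℤ}
    (hE8 : 10 ^ 8 ≤ E) (hEn : 4 * 10 ^ 6 * E ≤ |F.n|) (hR : R1 E l) {d c : ℤ}
    (hE : E ∣ FF (-1) (-1) F.n l 1) (_hl : IsLab (-1) (-1) F.n d c)
    (hq : Eqv (Lam F.θ d c) (JJ F.θ E l) (E * d)) :
    F2 F.θ (Lam F.θ d c) d |(F.n : ℝ)| := by
  obtain ⟨w, hw0, hw, hwN⟩ := hq
  intro x hx hxN hRC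
  exfalso
  have hE8' := E_real hE8
  have hE0 : (0 : ℝ) < E := by linarith [show (0 : ℝ) < 10 ^ 8 by norm_num]
  have hpos : (0 : ℝ) ≤ |(F.n : ℝ)| := abs_nonneg _
  have hP := Prim_Eqv hw0 hw hx
  have hN : |Nm (fun i => w i * x i)| ≤ 3 * E * |(F.n : ℝ)| := by
    rw [Nm_mul1, abs_mul, hwN]
    have : (E : ℝ) * d * |Nm x| = E * (d * |Nm x|) := by ring
    rw [this]
    have h1 : (E : ℝ) * (d * |Nm x|) ≤ E * (1.6 * |(F.n : ℝ)|) :=
      mul_le_mul_of_nonneg_left hxN hE0.le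
    have h2 : 0 ≤ (E : ℝ) * |(F.n : ℝ)| := mul_nonneg hE0.le hpos
    linarith
  obtain ⟨u, hu, k, hk, hz⟩ := root_core F hs ht hn hE8 hEn hR hE hP hN
  have hk2 : (k : ℝ) * k = 1 := by
    rcases hk with rfl | rfl <;> norm_num
  have h4 : |E| ≤ 4 := by
    refine hRC E fun y hy => ?_
    obtain ⟨a, b, e, habe⟩ := hy
    refine ⟨a + b * l + e * l ^ 2, fun i => (y i - ((a + b * l + e * l ^ 2 : ℤ) : ℝ)) * x i / E,
      ?_, fun i => ?_⟩
    · rw [hw]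
      have hyJ : (fun i => y i - ((a + b * l + e * l ^ 2 : ℤ) : ℝ)) ∈ JJ F.θ E l := by
        refine ⟨a - (a + b * l + e * l ^ 2), b, e, fun i => ?_, ?_⟩
        · show y i - ((a + b * l + e * l ^ 2 : ℤ) : ℝ) = _
          rw [habe i]; push_cast; ring
        · have : a - (a + b * l + e * l ^ 2) + b * l + e * l ^ 2 = 0 := by ring
          rw [this]
          exact dvd_zero _
      have h1 := JJ_smul F k (JJ_mul F hs ht hE (Un_O F hu) hyJ)
      have e1 : (fun i => w i * ((y i - ((a + b * l + e * l ^ 2 : ℤ) : ℝ)) * x i / E))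
          = fun i => (k : ℝ) * (u i * (y i - ((a + b * l + e * l ^ 2 : ℤ) : ℝ))) := by
        funext i
        have h2 : w i * x i = k * (E * u i) := hz i
        have h3 : w i * ((y i - ((a + b * l + e * l ^ 2 : ℤ) : ℝ)) * x i / E)
            = (w i * x i) * (y i - ((a + b * l + e * l ^ 2 : ℤ) : ℝ)) / E := by ring
        rw [h3, h2]
        field_simp
      rw [e1]
      exact h1
    · field_simp
  rw [abs_of_pos (by linarith)] at h4
  linarith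

theorem root_labelG (F : Frame) (hs : F.s = -1) (ht : F.t = -1) (hn : 10 ^ 24 ≤ |F.n|) {E l : ℤ}
    (hE8 : 10 ^ 8 ≤ E) (hEn : 4 * 10 ^ 6 * E ≤ |F.n|) (hR : R1 E l) {d c : ℤ}
    (hE : E ∣ FF (-1) (-1) F.n l 1) (hl : IsLab (-1) (-1) F.n d c)
    (hq : Eqv (Lam F.θ d c) (JJ F.θ E l) (E * d)) :
    3 * |F.n| < d := by
  obtain ⟨w, hw0, hw, hwN⟩ := hq
  by_contra hcon
  push Not at hcon
  have hE8' := E_real hE8
  have hE0 : (0 : ℝ) < E := by linarith [show (0 : ℝ) < 10 ^ 8 by norm_num]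
  have hEne : (E : ℝ) ≠ 0 := hE0.ne'
  have hpos : (0 : ℝ) ≤ |(F.n : ℝ)| := abs_nonneg _
  have hl' : IsLab F.s F.t F.n d c := by rw [hs, ht]; exact hl
  have hP := Prim_Eqv hw0 hw (prim_one F hl')
  have hN : |Nm (fun i => w i * (1 : ℝ))| ≤ 3 * E * |(F.n : ℝ)| := by
    have e : (fun i => w i * (1 : ℝ)) = w := by funext i; ring
    rw [e, hwN]
    have h1 : (d : ℝ) ≤ 3 * |(F.n : ℝ)| := by
      have : ((d : ℤ) : ℝ) ≤ ((3 * |F.n| : ℤ) : ℝ) := by exact_mod_cast hcon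
      push_cast at this
      exact this
    have h2 : (E : ℝ) * d ≤ E * (3 * |(F.n : ℝ)|) :=
      mul_le_mul_of_nonneg_left h1 hE0.le
    linarith
  obtain ⟨u, hu, k, hk, hz⟩ := root_core F hs ht hn hE8 hEn hR hE hP hN
  have hk0 : (k : ℝ) ≠ 0 := by
    rcases hk with rfl | rfl <;> norm_num
  have hu0 : ∀ i, u i ≠ 0 := fun i => Un_ne F hu i
  have hy1 : (fun i => (F.θ i - l) / w i) ∈ Lam F.θ d c := by
    rw [hw]
    refine ⟨-l, 1, 0, fun i => ?_, by simp⟩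
    field_simp [hw0 i]
    push_cast
    ring
  have hy2 := Lam_mul F (Un_O F hu) hy1
  obtain ⟨a, b, e, habe⟩ := hy2.2
  have h3 : ∀ i, ((c * l : ℤ) : ℝ) + ((-(c + l) : ℤ) : ℝ) * F.θ i + ((1 : ℤ) : ℝ) * F.θ i ^ 2
      = ((k * E * a : ℤ) : ℝ) + ((k * E * b : ℤ) : ℝ) * F.θ i
        + ((k * E * e : ℤ) : ℝ) * F.θ i ^ 2 := by
    intro i
    have h4 : (F.θ i - c) * (u i * ((F.θ i - l) / w i)) = a + b * F.θ i + e * F.θ i ^ 2 := habe i
    have h5 : w i = k * (E * u i) := by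
      have := hz i
      rw [mul_one] at this
      exact this
    rw [h5] at h4
    have hui := hu0 i
    have h6 : (F.θ i - c) * (u i * ((F.θ i - l) / (k * (E * u i))))
        = (F.θ i - c) * (F.θ i - l) / (k * E) := by
      field_simp
    rw [h6, div_eq_iff (mul_ne_zero hk0 hEne)] at h4
    push_cast
    linarith
  have h4 := (O_coord F h3).2.2
  have h5 : E ∣ 1 := ⟨k * e, by rw [h4]; ring⟩
  have h6 := Int.eq_one_of_dvd_one (by linarith) h5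
  rw [h6] at hE8
  norm_num at hE8

/-- (F1) at the root: `Lam_{E,l}` has no small elements. -/
theorem F1_rootG (F : Frame) (hs : F.s = -1) (ht : F.t = -1) (hn : 10 ^ 24 ≤ |F.n|) {E l : ℤ}
    (hE8 : 10 ^ 8 ≤ E) (hEn : 4 * 10 ^ 6 * E ≤ |F.n|) {d c : ℤ}
    (hE : E ∣ FF (-1) (-1) F.n l 1) (hl : IsLab (-1) (-1) F.n d c)
    (hq : Eqv (Lam F.θ d c) (JJ F.θ E l) (E * d)) :
    Pool.Agent.Lib_helper72.GC.F1 F.θ (Lam F.θ d c) d := by
  obtain ⟨w, hw0, hw, hwN⟩ := hq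
  intro v h _hv hv0 hvL
  by_contra hcon
  push Not at hcon
  have hd : 0 < d := hl.1
  have hdR : (0 : ℝ) < d := by exact_mod_cast hd
  have hE8' := E_real hE8
  have hEn' := En_real hEn
  have hEp : (0 : ℝ) < E := by linarith [show (0 : ℝ) < 10 ^ 8 by norm_num]
  have hE0 : (E0 : ℝ) = 6 * 10 ^ 7 := by unfold E0; norm_num
  have hnR := n_real hn
  have hn0 : (0 : ℝ) < |(F.n : ℝ)| := by linarith [show (0 : ℝ) < 10 ^ 24 by norm_num]
  have hlE : IsLab F.s F.t F.n E l := ⟨by linarith, by rw [hs, ht]; exact hE⟩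
  -- the two elements
  have hy0 : (fun i => (E : ℝ) / w i) ∈ Lam F.θ d c := by
    rw [hw]
    refine ⟨E, 0, 0, fun i => ?_, by simp⟩
    field_simp [hw0 i]
    simp
  have hy1 : (fun i => (F.θ i - l) / w i) ∈ Lam F.θ d c := by
    rw [hw]
    refine ⟨-l, 1, 0, fun i => ?_, by simp⟩
    field_simp [hw0 i]
    push_cast
    ring
  set γ : V := fun i => v i / w i with hγ
  have hγL : γ ∈ Lam F.θ E l := by
    constructor
    · have := hvL _ hy0
      have e : (fun i => (E : ℝ) * γ i) = fun i => v i * ((E : ℝ) / w i) := by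
        funext i
        rw [hγ]
        ring
      rw [e]
      exact this
    · have := hvL _ hy1
      have e : (fun i => (F.θ i - l) * γ i) = fun i => v i * ((F.θ i - l) / w i) := by
        funext i
        rw [hγ]
        ring
      rw [e]
      exact this
  have hγ0 : ∀ i, γ i ≠ 0 := fun i => div_ne_zero (hv0 i) (hw0 i)
  have hγN : |Nm γ| * (E * d) = |Nm v| := by
    have e1 : Nm γ * Nm w = Nm v := by
      have h0 := hw0 0
      have h1 := hw0 1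
      have h2 := hw0 2
      simp only [hγ, Nm]
      field_simp
    rw [← e1, abs_mul, hwN]
  have hγle : |Nm γ| * E ≤ E0 := by
    have h1 : (|Nm γ| * E) * d ≤ E0 * d := by
      rw [mul_assoc, hγN]
      exact hcon
    exact le_of_mul_le_mul_right h1 hdR
  -- the balanced multiple
  obtain ⟨u, hu, hbal⟩ := balanced F (by linarith [show (10:ℤ) ^ 20 ≤ 10 ^ 24 by norm_num]) hlE γ
    hγL hγ0
  set y : V := fun i => u i * γ i with hy
  have hyL : y ∈ Lam F.θ E l := Lam_mul F (Un_O F hu) hγL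
  have hyN : |Nm y| = |Nm γ| := by
    rw [hy, Nm_mul1, abs_mul, Un_Nm F hu, one_mul]
  have hprod := am_prod F (by linarith [show (10:ℤ) ^ 20 ≤ 10 ^ 24 by norm_num]) y
  rw [hyN] at hprod
  -- the bound for the sizes
  have ham0 : ∀ i, 0 ≤ am F.θ y i := fun i => abs_nonneg _
  have hsmall : ∀ i, 3 * (E * am F.θ y i) < 1 := by
    intro i
    have hb : ∀ j, am F.θ y i ≤ 1.001 * |(F.n : ℝ)| * am F.θ y j := fun j => hbal i j
    set A := am F.θ y i with hA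
    have hA0 : 0 ≤ A := ham0 i
    -- A^3 ≤ 1.01 n^2 * product
    have h3 : A ^ 3 ≤ (1.001 * |(F.n : ℝ)|) ^ 2 *
        (am F.θ y (F.e 0) * am F.θ y (F.e 1) * am F.θ y (F.e 2)) := by
      have key : ∀ a b c' : Fin 3, i = a → A ^ 3 ≤ (1.001 * |(F.n : ℝ)|) ^ 2 *
          (am F.θ y a * am F.θ y b * am F.θ y c') := by
        intro a b c' hia
        have e1 : am F.θ y a = A := by rw [← hia]
        rw [e1]
        have hb1 := hb b
        have hb2 := hb c'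
        have h4 : A * A ≤ (1.001 * |(F.n : ℝ)| * am F.θ y b) * (1.001 * |(F.n : ℝ)| * am F.θ y c') :=
          mul_le_mul hb1 hb2 hA0 (hA0.trans hb1)
        calc A ^ 3 = A * (A * A) := by ring
          _ ≤ A * ((1.001 * |(F.n : ℝ)| * am F.θ y b) * (1.001 * |(F.n : ℝ)| * am F.θ y c')) :=
              mul_le_mul_of_nonneg_left h4 hA0
          _ = _ := by ring
      obtain ⟨j, hj⟩ := F.e.surjective i
      fin_cases j
      · exact key _ _ _ hj.symm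
      · have := key (F.e 1) (F.e 0) (F.e 2) hj.symm
        calc A ^ 3 ≤ _ := this
          _ = _ := by ring
      · have := key (F.e 2) (F.e 0) (F.e 1) hj.symm
        calc A ^ 3 ≤ _ := this
          _ = _ := by ring
    have h5 : A ^ 3 * |(F.n : ℝ)| ^ 2 ≤ 1.003 * |Nm γ| := by
      have h6 : A ^ 3 * |(F.n : ℝ)| ^ 4 ≤ (1.001 * |(F.n : ℝ)|) ^ 2 * (1.0001 * |Nm γ|) := by
        calc A ^ 3 * |(F.n : ℝ)| ^ 4 ≤ ((1.001 * |(F.n : ℝ)|) ^ 2 *
            (am F.θ y (F.e 0) * am F.θ y (F.e 1) * am F.θ y (F.e 2))) * |(F.n : ℝ)| ^ 4 :=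
              mul_le_mul_of_nonneg_right h3 (by positivity)
          _ = (1.001 * |(F.n : ℝ)|) ^ 2 * (am F.θ y (F.e 0) * am F.θ y (F.e 1) *
              am F.θ y (F.e 2) * |(F.n : ℝ)| ^ 4) := by ring
          _ ≤ _ := mul_le_mul_of_nonneg_left hprod (by positivity)
      have h7 : |(F.n : ℝ)| ^ 2 * (A ^ 3 * |(F.n : ℝ)| ^ 2) ≤ |(F.n : ℝ)| ^ 2 * (1.003 * |Nm γ|) := by
        have h8 : 0 ≤ |(F.n : ℝ)| ^ 2 * |Nm γ| := by positivity
        calc |(F.n : ℝ)| ^ 2 * (A ^ 3 * |(F.n : ℝ)| ^ 2) = A ^ 3 * |(F.n : ℝ)| ^ 4 := by ring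
          _ ≤ (1.001 * |(F.n : ℝ)|) ^ 2 * (1.0001 * |Nm γ|) := h6
          _ = (1.001 ^ 2 * 1.0001) * (|(F.n : ℝ)| ^ 2 * |Nm γ|) := by ring
          _ ≤ 1.003 * (|(F.n : ℝ)| ^ 2 * |Nm γ|) :=
              mul_le_mul_of_nonneg_right (by norm_num) h8
          _ = _ := by ring
      exact le_of_mul_le_mul_left h7 (by positivity)
    -- (3 E A)^3 < 1
    by_contra hge
    push Not at hge
    have h6 : 1 ≤ (3 * (E * A)) ^ 3 := one_le_pow₀ hge
    have h7 : (3 * (E * A)) ^ 3 * |(F.n : ℝ)| ^ 2 ≤ 27 * (E : ℝ) ^ 2 * (1.003 * E0) := by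
      calc (3 * (E * A)) ^ 3 * |(F.n : ℝ)| ^ 2 = 27 * (E : ℝ) ^ 3 * (A ^ 3 * |(F.n : ℝ)| ^ 2) := by
            ring
        _ ≤ 27 * (E : ℝ) ^ 3 * (1.003 * |Nm γ|) := mul_le_mul_of_nonneg_left h5 (by positivity)
        _ = 27 * (E : ℝ) ^ 2 * (1.003 * (|Nm γ| * E)) := by ring
        _ ≤ _ := mul_le_mul_of_nonneg_left (by linarith) (by positivity)
    have h8 : (4 * 10 ^ 6 * (E : ℝ)) ^ 2 ≤ |(F.n : ℝ)| ^ 2 :=
      pow_le_pow_left₀ (by positivity) hEn' 2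
    have h9 : |(F.n : ℝ)| ^ 2 ≤ (3 * (E * A)) ^ 3 * |(F.n : ℝ)| ^ 2 :=
      le_mul_of_one_le_left (by positivity) h6
    have h10 : (4 * 10 ^ 6 * (E : ℝ)) ^ 2 ≤ 27 * (E : ℝ) ^ 2 * (1.003 * E0) :=
      h8.trans (h9.trans h7)
    rw [hE0] at h10
    have h11 : 0 < (E : ℝ) ^ 2 := by positivity
    nlinarith
  -- the triple
  obtain ⟨X, Z, X', hel, h1, h2⟩ := Lam_el F hlE hyL
  have hψ : (Z : ℝ) = E * (y 0 / fd F.θ 0 + y 1 / fd F.θ 1 + y 2 / fd F.θ 2) := by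
    have f0 := fd_ne F 0
    have f1 := fd_ne F 1
    have f2 := fd_ne F 2
    have hEne : (E : ℝ) ≠ 0 := hEp.ne'
    have e0 := congrFun hel 0
    have e1 := congrFun hel 1
    have e2 := congrFun hel 2
    rw [e0, e1, e2]
    simp only [el]
    unfold fd at *
    simp only [show (0 : Fin 3) + 1 = 1 by rfl, show (0 : Fin 3) + 2 = 2 by rfl,
      show (1 : Fin 3) + 1 = 2 by rfl, show (1 : Fin 3) + 2 = 0 by rfl,
      show (2 : Fin 3) + 1 = 0 by rfl, show (2 : Fin 3) + 2 = 1 by rfl] at *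
    have g01 : F.θ 0 - F.θ 1 ≠ 0 := left_ne_zero_of_mul f0
    have g02 : F.θ 0 - F.θ 2 ≠ 0 := right_ne_zero_of_mul f0
    have g12 : F.θ 1 - F.θ 2 ≠ 0 := left_ne_zero_of_mul f1
    have g10 : F.θ 1 - F.θ 0 ≠ 0 := right_ne_zero_of_mul f1
    have g20 : F.θ 2 - F.θ 0 ≠ 0 := left_ne_zero_of_mul f2
    have g21 : F.θ 2 - F.θ 1 ≠ 0 := right_ne_zero_of_mul f2
    have k10 : F.θ 1 - F.θ 0 = -(F.θ 0 - F.θ 1) := by ring
    have k20 : F.θ 2 - F.θ 0 = -(F.θ 0 - F.θ 2) := by ring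
    have k21 : F.θ 2 - F.θ 1 = -(F.θ 1 - F.θ 2) := by ring
    rw [k10, k20, k21]
    field_simp
    ring
  have hZ : Z = 0 := by
    have h3 : |(Z : ℝ)| < 1 := by
      rw [hψ, abs_mul, abs_of_pos hEp]
      have a0 := hsmall 0
      have a1 := hsmall 1
      have a2 := hsmall 2
      have t : |y 0 / fd F.θ 0 + y 1 / fd F.θ 1 + y 2 / fd F.θ 2| ≤
          am F.θ y 0 + am F.θ y 1 + am F.θ y 2 := by
        refine (abs_add_le _ _).trans (add_le_add (abs_add_le _ _) le_rfl)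
      have := mul_le_mul_of_nonneg_left t hEp.le
      linarith
    have h4 : |Z| < 1 := by exact_mod_cast h3
    exact Int.abs_lt_one_iff.1 h4
  obtain ⟨hcop, _⟩ := lab_coprime F.hs F.ht hlE
  have hX : E ∣ X := by
    rw [hZ, zero_sub, dvd_neg] at h1
    exact hcop.symm.dvd_of_dvd_mul_left h1
  have hX' : E ∣ X' := by
    rwa [hZ, mul_zero, sub_zero] at h2
  obtain ⟨a, rfl⟩ := hX
  obtain ⟨b, rfl⟩ := hX'
  have hyO : y ∈ O F.θ := by
    refine ⟨-F.s * a, b, 0, fun i => ?_⟩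
    rw [hel, hZ]
    simp only [el]
    push_cast
    field_simp
    ring
  obtain ⟨m, hm⟩ := O_Nm F hyO
  have hy0' : ∀ i, y i ≠ 0 := fun i => mul_ne_zero (Un_ne F hu i) (hγ0 i)
  have hNy : Nm y ≠ 0 := Nm_ne1 hy0'
  have hm0 : m ≠ 0 := by
    rintro rfl
    exact hNy (by rw [hm]; simp)
  have hm1 : (1 : ℝ) ≤ |Nm y| := by
    rw [hm]
    exact_mod_cast Int.one_le_abs hm0
  rw [hyN] at hm1
  have hfin : (E : ℝ) ≤ |Nm γ| * E := le_mul_of_one_le_left hEp.le hm1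
  rw [hE0] at hγle
  linarith

end Pool.Agent.Lib_helper1.GC2
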