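import Pool.Agent.Lib_helper72.GC.DefsM

/-!
# GC2: the root matrix, for arbitrary parameters `(E, l)`
-/

set_option autoImplicit false

namespace Pool.Agent.Lib_helper1.GC2

open Pool.Agent.Lib_helper83.CS Pool.Agent.Lib_helper72.GC

/-- The root matrix. -/
def MG (E l n d : ℤ) : Matrix (Fin 3) (Fin 3) ℤ := X E ((l - 1) * (n - l - 1)) l d (n - l)

/-- the generators of the root ideal -/
def groot (E l : ℤ) (θ : V) : Fin 3 → V :=
  ![fun i => θ i - (l : ℝ), fun _ => (E : ℝ), fun i => θ i * (θ i - (l : ℝ))]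

theorem inClass_rootG (F : Frame) (hs : F.s = -1) (ht : F.t = -1) (E l d : ℤ) (hE : 0 < E)
    (hd : E * d = -FF (-1) (-1) F.n l 1) :
    IsCS (MG E l F.n d) ∧ InClass (MG E l F.n d) F.θ (JJ F.θ E l) E := by
  have hd1 : E * d = -(l ^ 3 - F.n * l ^ 2 + (F.n - 1) * l - 1) := by
    rw [hd]
    unfold FF
    ring
  have hroot : ∀ i, F.θ i ^ 3 - (F.n : ℝ) * F.θ i ^ 2 + ((F.n : ℝ) - 1) * F.θ i - 1 = 0 := by
    intro i
    have h := F.root i
    rw [hs, ht] at h
    push_cast at h
    linarith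
  have hdR : (E : ℝ) * d = -((l : ℝ) ^ 3 - F.n * (l : ℝ) ^ 2 + ((F.n : ℝ) - 1) * l - 1) := by
    exact_mod_cast hd1
  refine ⟨⟨?_, ?_⟩, groot E l F.θ, ?_, ?_, ?_⟩
  · rw [MG, X, Matrix.det_fin_three]
    simp only [Matrix.of_apply, Matrix.cons_val', Matrix.cons_val_zero, Matrix.cons_val_one,
      Matrix.cons_val]
    linarith [hd1]
  · have e1 : (MG E l F.n d - 1 : Matrix (Fin 3) (Fin 3) ℤ) =
        !![-1, E, (l - 1) * (F.n - l - 1); 0, l - 1, d; 1, 0, F.n - l - 1] := by
      ext i j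
      fin_cases i <;> fin_cases j <;> simp [MG, X]
    rw [e1, Matrix.det_fin_three]
    simp only [Matrix.of_apply, Matrix.cons_val', Matrix.cons_val_zero, Matrix.cons_val_one,
      Matrix.cons_val]
    linarith [hd1]
  · intro i j
    have h := hroot i
    fin_cases j
    · simp [Fin.sum_univ_three, MG, X, groot]
    · simp [Fin.sum_univ_three, MG, X, groot]
      ring
    · simp [Fin.sum_univ_three, MG, X, groot]
      linear_combination h - hdR
  · ext x
    constructor
    · rintro ⟨m, hm⟩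
      refine ⟨-l * m 0 + E * m 1, m 0 - l * m 2, m 2, fun i => ?_, ⟨m 1, by ring⟩⟩
      rw [hm i]
      simp [Fin.sum_univ_three, groot]
      ring
    · rintro ⟨a, b, c, hx, k, hk⟩
      refine ⟨![b + l * c, k, c], fun i => ?_⟩
      have hkR : (a : ℝ) + b * l + c * (l : ℝ) ^ 2 = E * k := by exact_mod_cast hk
      rw [hx i]
      simp [Fin.sum_univ_three, groot]
      linear_combination hkR
  · have e1 : (Matrix.of fun j i => groot E l F.θ j i).det = (E : ℝ) * Vd F.θ := by
      rw [Matrix.det_fin_three]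
      simp [groot, Vd]
      ring
    have hE' : (0 : ℝ) < E := by exact_mod_cast hE
    rw [e1, abs_mul, abs_of_pos hE']

end Pool.Agent.Lib_helper1.GC2
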