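import Mathlib

/-!
# GC2: Gallagher's larger sieve
-/

set_option autoImplicit false

namespace Pool.Agent.Lib_helper1.GC2

open Finset

/-- the number of congruent pairs -/
theorem pairs_lower (S : Finset ℤ) (p : ℕ) (k : ℝ)
    (hk : ((S.image (fun s : ℤ => (s : ZMod p))).card : ℝ) ≤ k) :
    (S.card : ℝ) ^ 2 ≤ k * (((S ×ˢ S).filter (fun x => (p : ℤ) ∣ x.1 - x.2)).card : ℝ) := by
  classical
  set I := S.image (fun s : ℤ => (s : ZMod p)) with hI
  have h1 : (S.card : ℝ) = ∑ r ∈ I, ((S.filter (fun s : ℤ => (s : ZMod p) = r)).card : ℝ) := by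
    have := Finset.card_eq_sum_card_image (fun s : ℤ => (s : ZMod p)) S
    exact_mod_cast this
  have h2 : (((S ×ˢ S).filter (fun x => (p : ℤ) ∣ x.1 - x.2)).card : ℝ) =
      ∑ r ∈ I, ((S.filter (fun s : ℤ => (s : ZMod p) = r)).card : ℝ) ^ 2 := by
    have h3 : ((S ×ˢ S).filter (fun x => (p : ℤ) ∣ x.1 - x.2)) =
        I.biUnion (fun r => (S.filter (fun s : ℤ => (s : ZMod p) = r)) ×ˢ
          (S.filter (fun s : ℤ => (s : ZMod p) = r))) := by
      ext ⟨a, b⟩
      simp only [mem_filter, mem_product, mem_biUnion]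
      constructor
      · rintro ⟨⟨ha, hb⟩, hd⟩
        refine ⟨(a : ZMod p), mem_image_of_mem _ ha, ⟨ha, rfl⟩, hb, ?_⟩
        rw [eq_comm, ← sub_eq_zero, ← Int.cast_sub, ZMod.intCast_zmod_eq_zero_iff_dvd]
        exact hd
      · rintro ⟨r, _, ⟨ha, har⟩, hb, hbr⟩
        refine ⟨⟨ha, hb⟩, ?_⟩
        rw [← ZMod.intCast_zmod_eq_zero_iff_dvd, Int.cast_sub, har, hbr, sub_self]
    rw [h3, card_biUnion]
    · push_cast
      refine sum_congr rfl fun r _ => ?_
      rw [card_product]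
      push_cast
      ring
    · intro r _ r' _ hrr
      show Disjoint _ _
      rw [Finset.disjoint_left]
      rintro ⟨a, b⟩ h h'
      simp only [mem_product, mem_filter] at h h'
      exact hrr (h.1.2.symm.trans h'.1.2)
  rw [h2, h1]
  have h4 := sq_sum_le_card_mul_sum_sq (s := I)
    (f := fun r => ((S.filter (fun s : ℤ => (s : ZMod p) = r)).card : ℝ))
  refine h4.trans ?_
  exact mul_le_mul_of_nonneg_right hk (sum_nonneg fun r _ => sq_nonneg _)

/-- the sum of the logarithms of the primes dividing an integer -/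
theorem sum_log_dvd (P : Finset ℕ) (hP : ∀ p ∈ P, p.Prime) (m : ℤ) (hm : m ≠ 0) (M : ℝ)
    (hM : |(m : ℝ)| ≤ M) :
    ∑ p ∈ P.filter (fun p : ℕ => (p : ℤ) ∣ m), Real.log p ≤ Real.log M := by
  classical
  have h1 : ∏ p ∈ P.filter (fun p : ℕ => (p : ℤ) ∣ m), p ∣ m.natAbs := by
    apply Finset.prod_primes_dvd
    · intro p hp
      exact (hP p (mem_filter.1 hp).1).prime
    · intro p hp
      exact Int.natCast_dvd.1 (mem_filter.1 hp).2
  have hm0 : 0 < m.natAbs := Int.natAbs_pos.2 hm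
  have h2 := Nat.le_of_dvd hm0 h1
  have h3 : (0 : ℝ) < ∏ p ∈ P.filter (fun p : ℕ => (p : ℤ) ∣ m), (p : ℝ) :=
    prod_pos fun p hp => by exact_mod_cast (hP p (mem_filter.1 hp).1).pos
  rw [← Real.log_prod]
  · refine Real.log_le_log h3 ?_
    refine le_trans ?_ hM
    have h4 : ((∏ p ∈ P.filter (fun p : ℕ => (p : ℤ) ∣ m), p : ℕ) : ℝ) ≤ (m.natAbs : ℝ) := by
      exact_mod_cast h2
    rw [Nat.cast_prod] at h4
    refine h4.trans (le_of_eq ?_)
    rw [Nat.cast_natAbs, Int.cast_abs]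
  · intro p hp
    have := (hP p (mem_filter.1 hp).1).pos
    positivity

/-- Gallagher's larger sieve. -/
theorem larger_sieve (S : Finset ℤ) (P : Finset ℕ) (hP : ∀ p ∈ P, p.Prime) (M : ℝ) (hM1 : 1 ≤ M)
    (hM : ∀ a ∈ S, ∀ b ∈ S, |((a - b : ℤ) : ℝ)| ≤ M) (ν : ℕ → ℝ) (hν : ∀ p ∈ P, 0 < ν p)
    (hS : ∀ p ∈ P, ((S.image (fun s : ℤ => (s : ZMod p))).card : ℝ) ≤ ν p) :
    (S.card : ℝ) * (∑ p ∈ P, Real.log p / ν p - Real.log M) ≤ ∑ p ∈ P, Real.log p := by
  classical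
  have hlog : ∀ p ∈ P, 0 ≤ Real.log p := fun p hp =>
    Real.log_nonneg (by exact_mod_cast (hP p hp).one_le)
  have hlM : 0 ≤ Real.log M := Real.log_nonneg hM1
  rcases S.eq_empty_or_nonempty with hS0 | hS0
  · rw [hS0, card_empty, Nat.cast_zero, zero_mul]
    exact sum_nonneg hlog
  have hc : (1 : ℝ) ≤ S.card := by exact_mod_cast hS0.card_pos
  have h1 : (S.card : ℝ) ^ 2 * ∑ p ∈ P, Real.log p / ν p ≤
      ∑ p ∈ P, Real.log p * (((S ×ˢ S).filter (fun x => (p : ℤ) ∣ x.1 - x.2)).card : ℝ) := by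
    rw [mul_sum]
    refine sum_le_sum fun p hp => ?_
    have h := pairs_lower S p (ν p) (hS p hp)
    have hn := hν p hp
    rw [mul_div_assoc']
    rw [div_le_iff₀ hn]
    calc (S.card : ℝ) ^ 2 * Real.log p ≤ (ν p * (((S ×ˢ S).filter
          (fun x => (p : ℤ) ∣ x.1 - x.2)).card : ℝ)) * Real.log p :=
          mul_le_mul_of_nonneg_right h (hlog p hp)
      _ = _ := by ring
  have h2 : ∑ p ∈ P, Real.log p * (((S ×ˢ S).filter (fun x => (p : ℤ) ∣ x.1 - x.2)).card : ℝ) =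
      ∑ x ∈ S ×ˢ S, ∑ p ∈ P.filter (fun p : ℕ => (p : ℤ) ∣ x.1 - x.2), Real.log p := by
    have h3 : ∀ p ∈ P, Real.log p *
        (((S ×ˢ S).filter (fun x => (p : ℤ) ∣ x.1 - x.2)).card : ℝ) =
        ∑ x ∈ S ×ˢ S, if (p : ℤ) ∣ x.1 - x.2 then Real.log p else 0 := by
      intro p _
      rw [← sum_filter, sum_const, nsmul_eq_mul, mul_comm]
    rw [sum_congr rfl h3, sum_comm]
    refine sum_congr rfl fun x _ => ?_
    rw [sum_filter]
  have h4 : ∑ x ∈ S ×ˢ S, ∑ p ∈ P.filter (fun p : ℕ => (p : ℤ) ∣ x.1 - x.2), Real.log p ≤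
      ∑ x ∈ S ×ˢ S, (Real.log M + if x.1 = x.2 then ∑ p ∈ P, Real.log p - Real.log M else 0) := by
    refine sum_le_sum fun x hx => ?_
    rw [mem_product] at hx
    by_cases hxx : x.1 = x.2
    · rw [if_pos hxx]
      have : ∑ p ∈ P.filter (fun p : ℕ => (p : ℤ) ∣ x.1 - x.2), Real.log p ≤
          ∑ p ∈ P, Real.log p :=
        sum_le_sum_of_subset_of_nonneg (filter_subset _ _) fun p hp _ => hlog p hp
      linarith
    · rw [if_neg hxx, add_zero]
      refine sum_log_dvd P hP _ (sub_ne_zero.2 hxx) M (hM _ hx.1 _ hx.2)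
  have h5 : ∑ x ∈ S ×ˢ S, (Real.log M + if x.1 = x.2 then ∑ p ∈ P, Real.log p - Real.log M else 0) =
      (S.card : ℝ) ^ 2 * Real.log M + S.card * (∑ p ∈ P, Real.log p - Real.log M) := by
    rw [sum_add_distrib, sum_const, card_product, nsmul_eq_mul, ← sum_filter, sum_const,
      nsmul_eq_mul]
    have h6 : ((S ×ˢ S).filter (fun x : ℤ × ℤ => x.1 = x.2)).card = S.card := by
      have : ((S ×ˢ S).filter (fun x : ℤ × ℤ => x.1 = x.2)) = S.diag := by
        ext ⟨a, b⟩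
        simp only [mem_filter, mem_product, mem_diag]
        constructor
        · rintro ⟨⟨ha, _⟩, h⟩
          exact ⟨ha, h⟩
        · rintro ⟨ha, h⟩
          exact ⟨⟨ha, h ▸ ha⟩, h⟩
      rw [this, diag_card]
    rw [h6]
    push_cast
    ring
  have h7 := h1.trans (h2.le.trans (h4.trans h5.le))
  have h8 : (S.card : ℝ) * ((S.card : ℝ) * (∑ p ∈ P, Real.log p / ν p - Real.log M)) ≤
      (S.card : ℝ) * (∑ p ∈ P, Real.log p - Real.log M) := by
    nlinarith [h7]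
  have h9 := le_of_mul_le_mul_left h8 (by linarith)
  linarith

end Pool.Agent.Lib_helper1.GC2
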